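import Mathlib
import Pool.Agent.H.MP_de1370_an.A

open MeasureTheory Set

namespace Pool.Agent.Results.MP_de1370_an.No

def cwk (E : Type) [NormedAddCommGroup E] [NormedSpace ℝ E] : Set (Set E) :=
  {C | C.Nonempty ∧ Convex ℝ C ∧ IsCompact (toWeakSpace ℝ E '' C)}

theorem result : ∃ (Ω : Type) (_ : MeasurableSpace Ω) (μ : Measure Ω),
    IsProbabilityMeasure μ ∧ μ.IsComplete ∧
    ∃ (X : Type) (_ : NormedAddCommGroup X) (_ : InnerProductSpace ℝ X) (_ : CompleteSpace X),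
      ∀ ψ : cwk X → X, (∀ C, ψ C ∈ C.1) → ∃ F : Ω → cwk X,
        (∀ φ : X →L[ℝ] ℝ, φ ≠ 0 → ∀ a : ℝ,
          MeasurableSet {t | ((F t).1 ∩ {x | a < φ x}).Nonempty}) ∧
        ¬ ∀ φ : X →L[ℝ] ℝ, Measurable fun t => φ (ψ (F t)) := by
  open Pool.Agent.H.MP_93dabc_an Pool.Agent.H.MP_de1370_an in
  exact ⟨Om, cc Om, ccm Om, ccm_prob Om, ccm_complete Om, X, inferInstance, inferInstance,
    inferInstance, main⟩

end Pool.Agent.Results.MP_de1370_an.No
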